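import Mathlib

set_option autoImplicit false

namespace Pool.Agent.Results.MP_ef9ba3_an.Counter

open Metric

/-- Euclidean space -/
abbrev E (n : ℕ) : Type := EuclideanSpace ℝ (Fin n)

/-- elements consistent with the data -/
def K {H Y : Type} [NormedAddCommGroup H] [NormedAddCommGroup Y] (P : H → H) (Λ : H → Y)
    (ε η : ℝ) (y : Y) : Set H := {f | ‖P f‖ ≤ ε ∧ ‖y - Λ f‖ ≤ η}

/-- regularization functional -/
def F {H Y : Type} [NormedAddCommGroup H] [NormedAddCommGroup Y] (P : H → H) (Λ : H → Y)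
    (y : Y) (τ : ℝ) (f : H) : ℝ := (1 - τ) * ‖P f‖ ^ 2 + τ * ‖y - Λ f‖ ^ 2

/-- z is the centre of the unique smallest closed ball containing S -/
def IsChebCenter {H : Type} [NormedAddCommGroup H] (S : Set H) (z : H) : Prop :=
  ∃ r : ℝ, S ⊆ closedBall z r ∧
    ∀ (w : H) (s : ℝ), S ⊆ closedBall w s → r ≤ s ∧ (s = r → w = z)

/-- counterexample data -/
def Bad {H Y : Type} [NormedAddCommGroup H] [InnerProductSpace ℝ H] [NormedAddCommGroup Y]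
    [InnerProductSpace ℝ Y] (P : H →ₗ[ℝ] H) (Λ : H →ₗ[ℝ] Y) (ε η : ℝ) (y : Y) : Prop :=
  0 < ε ∧ 0 < η ∧ LinearMap.ker P ⊓ LinearMap.ker Λ = ⊥ ∧ (K P Λ ε η y).Nonempty ∧
    ∃ z, IsChebCenter (K P Λ ε η y) z ∧ ∀ τ ∈ Set.Icc (0 : ℝ) 1, ∃ f, F P Λ y τ f < F P Λ y τ z

noncomputable def PP : E 2 →ₗ[ℝ] E 2 := Matrix.toLpLin 2 2 !![1, 0; 0, 2]

noncomputable def LL : E 2 →ₗ[ℝ] E 1 := Matrix.toLpLin 2 2 !![3, -2]

theorem nP (f : E 2) : ‖PP f‖ ^ 2 = f 0 ^ 2 + 4 * f 1 ^ 2 := by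
  rw [EuclideanSpace.real_norm_sq_eq]
  simp [PP, Fin.sum_univ_two, Matrix.toLpLin_apply, Matrix.mulVec, dotProduct]; ring

theorem nL (f : E 2) : ‖(!₂[64 / 5] : E 1) - LL f‖ ^ 2 = (64 / 5 - 3 * f 0 + 2 * f 1) ^ 2 := by
  rw [EuclideanSpace.real_norm_sq_eq]
  simp [LL, Fin.sum_univ_two, Matrix.toLpLin_apply, Matrix.mulVec, dotProduct]; ring

theorem memK (f : E 2) : f ∈ K PP LL √40 (36 / 5) (!₂[64 / 5] : E 1) ↔
    f 0 ^ 2 + 4 * f 1 ^ 2 ≤ 40 ∧ (64 / 5 - 3 * f 0 + 2 * f 1) ^ 2 ≤ (36 / 5) ^ 2 := by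
  rw [← nP, ← nL, K, Set.mem_ofPred_eq, Real.le_sqrt (norm_nonneg _) (by norm_num),
    pow_le_pow_iff_left₀ (norm_nonneg _) (by norm_num) two_ne_zero]

theorem dsq (f w : E 2) : dist f w ^ 2 = (f 0 - w 0) ^ 2 + (f 1 - w 1) ^ 2 := by
  rw [dist_eq_norm, EuclideanSpace.real_norm_sq_eq]; simp [Fin.sum_univ_two]

theorem result : ∃ (n m : ℕ) (P : E n →ₗ[ℝ] E n) (Λ : E n →ₗ[ℝ] E m) (ε η : ℝ) (y : E m),
    Bad P Λ ε η y := by
  have hp : (!₂[-6 / 25, -79 / 25] : E 2) ∈ K PP LL √40 (36 / 5) (!₂[64 / 5] : E 1) := by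
    rw [memK]; norm_num
  have hq : (!₂[6, 1] : E 2) ∈ K PP LL √40 (36 / 5) (!₂[64 / 5] : E 1) := by
    rw [memK]; norm_num
  refine ⟨2, 1, PP, LL, √40, 36 / 5, !₂[64 / 5], by positivity, by norm_num, ?_, ⟨_, hq⟩,
    !₂[72 / 25, -27 / 25], ⟨√(8788 / 625), fun f hf => ?_, fun w s h => ?_⟩, fun τ hτ => ?_⟩
  · rw [eq_bot_iff]
    rintro f ⟨h, -⟩
    have := nP f
    rw [show PP f = 0 from h, norm_zero] at this
    have a : f 0 = 0 := by nlinarith [sq_nonneg (f 0), sq_nonneg (f 1)]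
    have b : f 1 = 0 := by nlinarith [sq_nonneg (f 0), sq_nonneg (f 1)]
    ext i; fin_cases i <;> simp [a, b]
  · rw [memK] at hf
    rw [mem_closedBall, Real.le_sqrt dist_nonneg (by norm_num), dsq]
    obtain ⟨h1, h2⟩ := hf
    have a : 0 ≤ 40 - 6 * f 0 - 4 * f 1 := by
      nlinarith [sq_nonneg (f 0 - 6), sq_nonneg (f 1 - 1)]
    have b : 0 ≤ 3 * f 0 - 2 * f 1 - 28 / 5 := by nlinarith [abs_le_of_sq_le_sq' h2 (by norm_num)]
    simp only [Matrix.cons_val_zero, Matrix.cons_val_one]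
    nlinarith [mul_nonneg a b]
  · have a := h hp
    have b := h hq
    rw [mem_closedBall] at a b
    have s0 : 0 ≤ s := dist_nonneg.trans a
    have a' := pow_le_pow_left₀ dist_nonneg a 2
    have b' := pow_le_pow_left₀ dist_nonneg b 2
    rw [dsq] at a' b'
    simp only [Matrix.cons_val_zero, Matrix.cons_val_one] at a' b'
    refine ⟨Real.sqrt_le_iff.2 ⟨s0, by
      nlinarith [sq_nonneg (w 0 - 72 / 25), sq_nonneg (w 1 + 27 / 25)]⟩, fun e => ?_⟩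
    rw [e, Real.sq_sqrt (by norm_num)] at a' b'
    have c : w 0 = 72 / 25 := by nlinarith [sq_nonneg (w 0 - 72 / 25), sq_nonneg (w 1 + 27 / 25)]
    have d : w 1 = -27 / 25 := by nlinarith [sq_nonneg (w 0 - 72 / 25), sq_nonneg (w 1 + 27 / 25)]
    ext i; fin_cases i <;> simp [c, d]
  · refine ⟨!₂[31 / 10, -4 / 5], ?_⟩
    simp only [F, nP, nL, Matrix.cons_val_zero, Matrix.cons_val_one]
    nlinarith [hτ.1, hτ.2]

end Pool.Agent.Results.MP_ef9ba3_an.Counter
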